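import Mathlib
import Pool.Agent.P.MP_e0518f_lc.Defs
import Pool.Agent.P.MP_e0518f_lc.Main

set_option autoImplicit false

namespace Pool.Agent.Results.MP_e0518f_lc.HaarNull

open Pool.Agent.P.MP_e0518f_lc

/-- The orientation-preserving circle homeomorphisms with irrational rotation number form a
Haar null set. -/
theorem result : IsHaarNull homeoTop irrationalRotation :=
  Pool.Agent.P.MP_e0518f_lc.main

end Pool.Agent.Results.MP_e0518f_lc.HaarNull
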